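import Pool.Agent.H893R3.Dig.Sup2

/-!
# Infinitely often, `√2` has at least `(√(8/π) - ε) √n` zeros among its first `n` binary digits

No hypothesis is assumed.  More generally, for every real quadratic irrational `ξ` with
`A ξ² + B ξ + C = 0`, `A > 0`, and every base `b`, the sum of the first `n` digits `c_k`, and also
the sum of the first `n` complementary digits `b - 1 - c_k`, exceeds `c √n` for infinitely many
`n`, for every `c < √(4 (b - 1) gcd(b, 2 A) / (π A))`.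
-/

set_option autoImplicit false

open Finset

namespace Pool.Agent.Results.MP_0308e6_nt.ManyZerosOften

/-- the `k`-th digit of `ξ` after the point in base `b` -/
noncomputable def digit (b : ℕ) (ξ : ℝ) (k : ℕ) : ℤ := ⌊ξ * (b : ℝ) ^ k⌋ % (b : ℤ)

lemma digit_neg {b : ℕ} (hb : 2 ≤ b) {ξ : ℝ} (hirr : Irrational ξ) (k : ℕ) :
    digit b (-ξ) k = b - 1 - digit b ξ k := by
  unfold digit
  have h1 : ⌊-ξ * (b : ℝ) ^ k⌋ = -⌊ξ * (b : ℝ) ^ k⌋ - 1 := by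
    have h2 : Irrational (ξ * ((b ^ k : ℕ) : ℝ)) := hirr.mul_natCast (by positivity)
    have h3 : ξ * (b : ℝ) ^ k = ξ * ((b ^ k : ℕ) : ℝ) := by push_cast; rfl
    rw [neg_mul, h3]
    set z : ℝ := ξ * ((b ^ k : ℕ) : ℝ) with hz
    rw [Int.floor_eq_iff]
    push_cast
    have h4 := Int.floor_le z
    have h5 := Int.lt_floor_add_one z
    have h6 : (⌊z⌋ : ℝ) ≠ z := fun h => h2 ⟨(⌊z⌋ : ℚ), by push_cast; exact h⟩
    have h7 : (⌊z⌋ : ℝ) < z := lt_of_le_of_ne h4 h6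
    constructor <;> linarith
  rw [h1]
  set m := ⌊ξ * (b : ℝ) ^ k⌋
  have hb' : (0 : ℤ) < b := by exact_mod_cast (by omega : 0 < b)
  have h8 := Int.emod_add_mul_ediv m b
  have h9 := Int.emod_nonneg m hb'.ne'
  have h10 := Int.emod_lt_of_pos m hb'
  have h11 : -m - 1 = (b - 1 - m % b) + b * (-(m / b) - 1) := by linarith
  rw [h11, Int.add_mul_emod_self_left]
  exact Int.emod_eq_of_lt (by omega) (by omega)

theorem both {b : ℕ} (hb : 2 ≤ b) {A B C : ℤ} (hA : 0 < A) {ξ : ℝ} (hirr : Irrational ξ)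
    (hq : (A : ℝ) * ξ ^ 2 + B * ξ + C = 0) {c : ℝ} (hc : 0 ≤ c)
    (hcs : c ^ 2 * Real.pi * A < 4 * ((b : ℝ) - 1) * (Int.gcd b (2 * A) : ℕ)) (N : ℕ) :
    (∃ n : ℕ, N ≤ n ∧ c * Real.sqrt n < ((∑ k ∈ Icc 1 n, digit b ξ k : ℤ) : ℝ)) ∧
    (∃ n : ℕ, N ≤ n ∧ c * Real.sqrt n < ((∑ k ∈ Icc 1 n, (b - 1 - digit b ξ k) : ℤ) : ℝ)) := by
  have hsum : ∀ (η : ℝ) (n : ℕ), ∑ k ∈ range n, ⌊η * (b : ℝ) ^ (k + 1)⌋ % (b : ℤ) =
      ∑ k ∈ Icc 1 n, digit b η k := by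
    intro η n
    induction n with
    | zero => simp
    | succ n ih =>
      rw [sum_range_succ, Finset.sum_Icc_succ_top (by omega), ih]
      rfl
  obtain ⟨n1, h1, k1⟩ := Pool.Agent.H893R3.Dig.sup_real hb hA hirr hq hc hcs N
  obtain ⟨n2, h2, k2⟩ := Pool.Agent.H893R3.Dig.sup_real hb (A := A) (B := -B) (C := C) hA hirr.neg
    (by push_cast; linarith) hc hcs N
  rw [hsum] at k1 k2
  simp only [digit_neg hb hirr] at k2
  exact ⟨⟨n1, h1, k1⟩, ⟨n2, h2, k2⟩⟩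

/-- The result. -/
theorem result :
    (∀ c : ℝ, c < Real.sqrt (8 / Real.pi) → ∀ N : ℕ, ∃ n : ℕ, N ≤ n ∧
      c * Real.sqrt n <
        (((Icc 1 n).filter (fun k => digit 2 (Real.sqrt 2) k = 0)).card : ℝ)) ∧
    (∀ b : ℕ, 2 ≤ b → ∀ A B C : ℤ, 0 < A → ∀ ξ : ℝ, Irrational ξ →
      (A : ℝ) * ξ ^ 2 + B * ξ + C = 0 → ∀ c : ℝ,
      c < Real.sqrt (4 * ((b : ℝ) - 1) * (Int.gcd b (2 * A) : ℕ) / (Real.pi * A)) → ∀ N : ℕ,
      (∃ n : ℕ, N ≤ n ∧ c * Real.sqrt n < ((∑ k ∈ Icc 1 n, digit b ξ k : ℤ) : ℝ)) ∧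
      (∃ n : ℕ, N ≤ n ∧ c * Real.sqrt n < ((∑ k ∈ Icc 1 n, (b - 1 - digit b ξ k) : ℤ) : ℝ))) := by
  have gen : ∀ b : ℕ, 2 ≤ b → ∀ A B C : ℤ, 0 < A → ∀ ξ : ℝ, Irrational ξ →
      (A : ℝ) * ξ ^ 2 + B * ξ + C = 0 → ∀ c : ℝ,
      c < Real.sqrt (4 * ((b : ℝ) - 1) * (Int.gcd b (2 * A) : ℕ) / (Real.pi * A)) → ∀ N : ℕ,
      (∃ n : ℕ, N ≤ n ∧ c * Real.sqrt n < ((∑ k ∈ Icc 1 n, digit b ξ k : ℤ) : ℝ)) ∧
      (∃ n : ℕ, N ≤ n ∧
        c * Real.sqrt n < ((∑ k ∈ Icc 1 n, (b - 1 - digit b ξ k) : ℤ) : ℝ)) := by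
    intro b hb A B C hA ξ hirr hq c hc N
    have hbR : (2 : ℝ) ≤ b := by exact_mod_cast hb
    have hAR : (1 : ℝ) ≤ A := by exact_mod_cast hA
    have hpi := Real.pi_pos
    have hpos : 0 < 4 * ((b : ℝ) - 1) * (Int.gcd b (2 * A) : ℕ) / (Real.pi * A) := by
      have h1 : 0 < Int.gcd (b : ℤ) (2 * A) :=
        Int.gcd_pos_of_ne_zero_left _ (by exact_mod_cast (by omega : b ≠ 0))
      have h2 : (0 : ℝ) < (Int.gcd (b : ℤ) (2 * A) : ℕ) := by exact_mod_cast h1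
      have h3 : (0 : ℝ) < (b : ℝ) - 1 := by linarith
      positivity
    set c' : ℝ := max c 0 with hc'
    have hc0 : 0 ≤ c' := le_max_right _ _
    have hlt : c' < Real.sqrt (4 * ((b : ℝ) - 1) * (Int.gcd b (2 * A) : ℕ) / (Real.pi * A)) :=
      max_lt hc (Real.sqrt_pos.mpr hpos)
    have hsq : c' ^ 2 * Real.pi * A < 4 * ((b : ℝ) - 1) * (Int.gcd b (2 * A) : ℕ) := by
      rw [Real.lt_sqrt hc0, lt_div_iff₀ (by positivity)] at hlt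
      linarith
    obtain ⟨⟨n1, h1, k1⟩, ⟨n2, h2, k2⟩⟩ := both hb hA hirr hq hc0 hsq N
    have hle : ∀ n : ℕ, c * Real.sqrt n ≤ c' * Real.sqrt n := fun n =>
      mul_le_mul_of_nonneg_right (le_max_left _ _) (Real.sqrt_nonneg _)
    exact ⟨⟨n1, h1, (hle n1).trans_lt k1⟩, ⟨n2, h2, (hle n2).trans_lt k2⟩⟩
  refine ⟨?_, gen⟩
  intro c hc N
  have hd : ∀ k, digit 2 (Real.sqrt 2) k = 0 ∨ digit 2 (Real.sqrt 2) k = 1 := by
    intro k
    unfold digit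
    push_cast
    omega
  have hval : 4 * (((2 : ℕ) : ℝ) - 1) * (Int.gcd ((2 : ℕ) : ℤ) (2 * 1) : ℕ) /
      (Real.pi * ((1 : ℤ) : ℝ)) = 8 / Real.pi := by
    have e1 : Int.gcd ((2 : ℕ) : ℤ) (2 * 1) = 2 := by decide
    rw [e1]
    push_cast
    norm_num
  obtain ⟨_, n, hn, hlt⟩ := gen 2 le_rfl 1 0 (-2) one_pos (Real.sqrt 2) irrational_sqrt_two (by
      push_cast
      rw [Real.sq_sqrt (by norm_num)]; norm_num) c (by rw [hval]; exact hc) N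
  refine ⟨n, hn, hlt.trans_le (le_of_eq ?_)⟩
  rw [card_filter]
  push_cast
  refine sum_congr rfl fun k _ => ?_
  rcases hd k with h3 | h3 <;> rw [h3] <;> norm_num

end Pool.Agent.Results.MP_0308e6_nt.ManyZerosOften
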